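import Pool.Agent.K7.H47.DM.Stm4

set_option autoImplicit false

namespace Pool.Agent.K7.H23.D4

open Pool.Agent.K7.H47.DM4

theorem ext_indep {N : ℕ} {E : Type} [Finite E] (v v' : E → Fin N → ℂ)
    (h : ∀ f : Fin N → E, Function.Injective f → (Matrix.of fun c k => v (f c) k).det ≠ 0 →
      (Matrix.of fun c k => v' (f c) k).det ≠ 0)
    (hv : Submodule.span ℂ (Set.range v) = ⊤) (B : Set E) (hB : LinearIndepOn ℂ v B) :
    LinearIndepOn ℂ v' B := by
  classical
  obtain ⟨b, -, hBb, hspan, hb⟩ := exists_linearIndepOn_extension hB (Set.subset_univ B)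
  have htop : Submodule.span ℂ (v '' b) = ⊤ := by
    rw [eq_top_iff, ← hv, Submodule.span_le]
    rw [Set.image_univ] at hspan
    exact hspan
  have hb' : LinearIndependent ℂ (fun x : b => v x) := hb
  have hbt : ⊤ ≤ Submodule.span ℂ (Set.range (fun x : b => v x)) := by
    have : Set.range (fun x : b => v x) = v '' b := by
      ext y
      simp
    rw [this, htop]
  haveI : Fintype b := Fintype.ofFinite b
  let bs := Module.Basis.mk hb' hbt
  have hcard : Fintype.card b = N := by
    have := Module.finrank_eq_card_basis bs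
    simpa using this.symm
  let e0 : Fin N ≃ b := (finCongr hcard.symm).trans (Fintype.equivFin b).symm
  have hinj : Function.Injective (fun c => (e0 c : E)) := fun x y hxy => e0.injective (Subtype.ext hxy)
  have h1 : LinearIndependent ℂ (fun c => v (e0 c : E)) := hb'.comp e0 e0.injective
  have h2 : (Matrix.of fun c k => v (e0 c : E) k).det ≠ 0 := by
    have h3 : LinearIndependent ℂ (Matrix.of fun c k => v (e0 c : E) k).row := h1
    rw [Matrix.linearIndependent_rows_iff_isUnit, Matrix.isUnit_iff_isUnit_det] at h3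
    exact h3.ne_zero
  have h4 := h _ hinj h2
  have h5 : LinearIndependent ℂ (Matrix.of fun c k => v' (e0 c : E) k).row := by
    rw [Matrix.linearIndependent_rows_iff_isUnit, Matrix.isUnit_iff_isUnit_det]
    exact isUnit_iff_ne_zero.2 h4
  have h6 : LinearIndependent ℂ (fun c => v' (e0 c : E)) := h5
  have h7 : LinearIndependent ℂ (fun x : b => v' x) := by
    have := h6.comp e0.symm e0.symm.injective
    convert this using 1
    ext x
    simp
  have h8 : LinearIndepOn ℂ v' b := h7
  exact h8.mono hBb

theorem lin : StLin := by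
  classical
  intro N E _ v v' h hv hv' p
  have e1 : ∀ B : Set E, LinearIndepOn ℂ v B → LinearIndepOn ℂ v' B :=
    ext_indep v v' (fun f hf => (h f hf).1) hv
  have e2 : ∀ B : Set E, LinearIndepOn ℂ v' B → LinearIndepOn ℂ v B :=
    ext_indep v' v (fun f hf => (h f hf).2) hv'
  let Z : Set E := {e | ∑ k, v e k * p k = 0}
  obtain ⟨I, hIZ, -, hspan, hI⟩ :=
    exists_linearIndepOn_extension (linearIndepOn_empty ℂ v) (Set.empty_subset Z)
  have hI' := e1 I hI
  have c1 : ∀ z ∈ Z, v' z ∈ Submodule.span ℂ (v' '' I) := by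
    intro z hz
    by_cases hzI : z ∈ I
    · exact Submodule.subset_span ⟨z, hzI, rfl⟩
    · by_contra hcon
      have h1 := (linearIndepOn_insert hzI).2 ⟨hI', hcon⟩
      have h2 := (linearIndepOn_insert hzI).1 (e2 _ h1)
      exact h2.2 (hspan ⟨z, hz, rfl⟩)
  have c2 : ∀ e, e ∉ Z → v' e ∉ Submodule.span ℂ (v' '' I) := by
    intro e he
    have heI : e ∉ I := fun h' => he (hIZ h')
    have h1 : v e ∉ Submodule.span ℂ (v '' I) := by
      intro hmem
      apply he
      let φ : (Fin N → ℂ) →ₗ[ℂ] ℂ := 
        { toFun := fun x => ∑ k, x k * p k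
          map_add' := by intro x y; simp [add_mul, Finset.sum_add_distrib]
          map_smul' := by intro c x; simp [Finset.mul_sum, mul_assoc] }
      have h2 : Submodule.span ℂ (v '' I) ≤ LinearMap.ker φ := by
        rw [Submodule.span_le]
        rintro _ ⟨i, hi, rfl⟩
        exact hIZ hi
      exact h2 hmem
    have h3 := (linearIndepOn_insert heI).2 ⟨hI, h1⟩
    exact ((linearIndepOn_insert heI).1 (e1 _ h3)).2
  let S := Submodule.span ℂ (v' '' I)
  obtain ⟨φ, hφ, hφ2⟩ := Module.Dual.exists_forall_mem_ne_zero_of_forall_exists S.dualAnnihilator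
    (fun e : {e // e ∉ Z} => Module.Dual.eval ℂ (Fin N → ℂ) (v' e)) (by
      rintro ⟨e, he⟩
      obtain ⟨g, hg1, hg2⟩ := Submodule.exists_le_ker_of_notMem (c2 e he)
      refine ⟨g, ?_, hg1⟩
      rw [Submodule.mem_dualAnnihilator]
      intro w hw
      exact hg2 hw)
  refine ⟨fun k => φ (Pi.single k 1), fun e => ?_⟩
  have key : ∀ x : Fin N → ℂ, ∑ k, x k * φ (Pi.single k 1) = φ x := by
    intro x
    conv_rhs => rw [← Finset.univ_sum_single x]
    rw [map_sum]
    apply Finset.sum_congr rfl
    intro k _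
    have : (Pi.single k (x k) : Fin N → ℂ) = x k • Pi.single k 1 := by
      rw [← Pi.single_smul]
      simp
    rw [this, map_smul, smul_eq_mul]
  rw [key]
  constructor
  · intro he
    rw [Submodule.mem_dualAnnihilator] at hφ
    exact hφ _ (c1 e he)
  · intro he
    by_contra hne
    exact hφ2 ⟨e, hne⟩ he

end Pool.Agent.K7.H23.D4
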