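import Pool.Agent.K7.H80.EC.Stm

set_option autoImplicit false

/-!
# Job DISJ of project EC (MP_fb8df7_pr)
-/

namespace Pool.Agent.K7.H23.ECDISJ

open Finset Pool.Agent.K7.H80.EC

lemma sum2 {α : Type} [DecidableEq α] (v : α → ℕ) (T : Finset α) (a b : α) :
    ∑ i ∈ T, v i = ∑ i ∈ (T.erase a).erase b, v i + (if a ∈ T then v a else 0) +
      (if b ∈ T.erase a then v b else 0) := by
  by_cases ha : a ∈ T
  · rw [← Finset.sum_erase_add T v ha]
    by_cases hb : b ∈ T.erase a
    · rw [← Finset.sum_erase_add _ v hb, if_pos ha, if_pos hb]; ring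
    · rw [Finset.erase_eq_of_notMem hb, if_pos ha, if_neg hb]; ring
  · rw [Finset.erase_eq_of_notMem ha, if_neg ha]
    by_cases hb : b ∈ T
    · rw [← Finset.sum_erase_add _ v hb, if_pos hb]; ring
    · rw [Finset.erase_eq_of_notMem hb, if_neg hb]; ring

/-- the rank of `i` in `S` -/
def rk {d : ℕ} (S : Finset (Fin d)) (i : Fin d) : ℕ := (S.filter (fun l => l ≤ i)).card

lemma rk_pos {d : ℕ} {S : Finset (Fin d)} {i : Fin d} (hi : i ∈ S) : 1 ≤ rk S i :=
  Finset.card_pos.2 ⟨i, Finset.mem_filter.2 ⟨hi, le_rfl⟩⟩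

lemma rk_le {d : ℕ} (S : Finset (Fin d)) (i : Fin d) : rk S i ≤ S.card :=
  Finset.card_filter_le _ _

lemma rk_lt {d : ℕ} {S : Finset (Fin d)} {i l : Fin d} (hl : l ∈ S) (h : i < l) :
    rk S i < rk S l := by
  apply Finset.card_lt_card
  refine ⟨fun x hx => ?_, fun hsub => ?_⟩
  · have := Finset.mem_filter.1 hx
    exact Finset.mem_filter.2 ⟨this.1, this.2.trans h.le⟩
  · have := Finset.mem_filter.1 (hsub (Finset.mem_filter.2 ⟨hl, le_rfl⟩))
    exact absurd this.2 (not_le.2 h)

lemma rk_ne {d : ℕ} {S : Finset (Fin d)} {i l : Fin d} (hi : i ∈ S) (hl : l ∈ S) (h : i ≠ l) :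
    rk S i ≠ rk S l := by
  rcases lt_or_gt_of_ne h with h1 | h1
  · exact (rk_lt hl h1).ne
  · exact (rk_lt hi h1).ne'

/-- two subsets of `S` with congruent rank sums which agree off two places are equal -/
lemma eq_of_modEq {d k : ℕ} {S T T' : Finset (Fin d)} (hS : S.card = k) (hT : T ⊆ S)
    (hT' : T' ⊆ S) (a b : Fin d) (hab : ∀ i, i ≠ a → i ≠ b → (i ∈ T ↔ i ∈ T'))
    (hm : (∑ i ∈ T, rk S i) ≡ (∑ i ∈ T', rk S i) [MOD 2 * k + 1]) : T = T' := by
  have hE : (T.erase a).erase b = (T'.erase a).erase b := by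
    ext i
    simp only [Finset.mem_erase]
    constructor
    · rintro ⟨h1, h2, h3⟩; exact ⟨h1, h2, (hab i h2 h1).1 h3⟩
    · rintro ⟨h1, h2, h3⟩; exact ⟨h1, h2, (hab i h2 h1).2 h3⟩
  rw [sum2 (rk S) T a b, sum2 (rk S) T' a b, hE, add_assoc, add_assoc] at hm
  have hm2 := Nat.ModEq.add_left_cancel' _ hm
  have ra : rk S a ≤ k := hS ▸ rk_le S a
  have rb : rk S b ≤ k := hS ▸ rk_le S b
  have hlt : ∀ U : Finset (Fin d), (if a ∈ U then rk S a else 0) +
      (if b ∈ U.erase a then rk S b else 0) < 2 * k + 1 := by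
    intro U
    split_ifs <;> omega
  have heq := Nat.ModEq.eq_of_lt_of_lt hm2 (hlt T) (hlt T')
  have pa : ∀ U : Finset (Fin d), U ⊆ S → a ∈ U → 1 ≤ rk S a := fun U hU h => rk_pos (hU h)
  have pb : ∀ U : Finset (Fin d), U ⊆ S → b ∈ U.erase a → 1 ≤ rk S b := fun U hU h =>
    rk_pos (hU (Finset.mem_of_mem_erase h))
  have pne : ∀ U U' : Finset (Fin d), U ⊆ S → U' ⊆ S → a ∈ U → b ∈ U'.erase a →
      rk S a ≠ rk S b := fun U U' hU hU' h h' =>
    rk_ne (hU h) (hU' (Finset.mem_of_mem_erase h')) (Finset.ne_of_mem_erase h').symm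
  have key : (a ∈ T ↔ a ∈ T') ∧ (b ∈ T.erase a ↔ b ∈ T'.erase a) := by
    by_cases h1 : a ∈ T <;> by_cases h2 : a ∈ T' <;> by_cases h3 : b ∈ T.erase a <;>
      by_cases h4 : b ∈ T'.erase a <;> simp only [h1, h2, h3, h4, if_true, if_false] at heq ⊢ <;>
      first
      | exact ⟨trivial, trivial⟩
      | (exfalso
         have q1 := fun h => pa T hT h
         have q2 := fun h => pa T' hT' h
         have q3 := fun h => pb T hT h
         have q4 := fun h => pb T' hT' h
         have q5 := fun h h' => pne T T' hT hT' h h'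
         have q6 := fun h h' => pne T' T hT' hT h h'
         have q7 := fun h h' => pne T T hT hT h h'
         have q8 := fun h h' => pne T' T' hT' hT' h h'
         simp only [h1, h2, h3, h4, forall_const, false_imp_iff, imp_true_iff, not_false_iff,
           IsEmpty.forall_iff, forall_true_left] at q1 q2 q3 q4 q5 q6 q7 q8
         omega)
  ext i
  by_cases hia : i = a
  · rw [hia]; exact key.1
  · by_cases hib : i = b
    · subst hib
      have := key.2
      simpa [Finset.mem_erase, hia] using this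
    · exact hab i hia hib

/-- the vertex -/
def vt {d : ℕ} (y : Fin d → Bool) (T : Finset (Fin d)) : Fin d → Bool :=
  fun i => if i ∈ T then true else y i

/-- a member of `nb e` agrees with `e` off the direction of `e` and one more place -/
lemma nb_agree {d : ℕ} (e g : E d) (h : g ∈ nb e) :
    ∃ a : Fin d, ∀ i, i ≠ e.1.2 → i ≠ a → g.1.1 i = e.1.1 i := by
  classical
  have h' : g = e ∨ ∃ c ∈ Copies d 2, InCopy c e ∧ InCopy c g := by
    simpa [nb] using h
  rcases h' with h | ⟨c, hc, h1, h2⟩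
  · exact ⟨e.1.2, fun i _ _ => by rw [h]⟩
  · have hc' : c.1.card = 2 := (Finset.mem_filter.1 hc).2.1
    have hcard : (c.1.erase e.1.2).card = 1 := by
      rw [Finset.card_erase_of_mem h1.1, hc']
    obtain ⟨a, ha⟩ := Finset.card_eq_one.1 hcard
    refine ⟨a, fun i hi hia => ?_⟩
    have hni : i ∉ c.1 := by
      intro hmem
      have : i ∈ c.1.erase e.1.2 := Finset.mem_erase.2 ⟨hi, hmem⟩
      rw [ha, Finset.mem_singleton] at this
      exact hia this
    rw [h1.2 i hni, h2.2 i hni]

theorem t : StDisj := by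
  classical
  intro d k hk c hc
  obtain ⟨S, y⟩ := c
  have hc' := (Finset.mem_filter.1 hc).2
  have hS : S.card = k := hc'.1
  have hy : ∀ i ∈ S, y i = false := hc'.2
  obtain ⟨j, hj⟩ : S.Nonempty := Finset.card_pos.1 (by omega)
  have hvj : ∀ T, T ⊆ S.erase j → vt y T j = false := by
    intro T hT
    have : j ∉ T := fun h => (Finset.mem_erase.1 (hT h)).1 rfl
    simp [vt, this, hy j hj]
  -- the edge
  let ed : Finset (Fin d) → E d := fun T =>
    if h : T ⊆ S.erase j then ⟨(vt y T, j), hvj T h⟩ else ⟨(vt y ∅, j), hvj ∅ (by simp)⟩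
  have hed : ∀ T, T ⊆ S.erase j → (ed T).1 = (vt y T, j) := by
    intro T hT
    simp only [ed, dif_pos hT]
  have hmemT : ∀ T, T ⊆ S.erase j → ∀ i, i ∈ S → (vt y T i = true ↔ i ∈ T) := by
    intro T hT i hi
    simp only [vt]
    split_ifs with h
    · simp [h]
    · simp [h, hy i hi]
  -- pigeonhole
  let f : Finset (Fin d) → ZMod (2 * k + 1) := fun T => ((∑ i ∈ T, rk S i : ℕ) : ZMod (2 * k + 1))
  have hcardP : (S.erase j).powerset.card = 2 ^ (k - 1) := by
    rw [Finset.card_powerset, Finset.card_erase_of_mem hj, hS]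
  obtain ⟨z, -, hz⟩ : ∃ z ∈ (univ : Finset (ZMod (2 * k + 1))),
      (2 ^ (k - 1) : ℝ) / (2 * k + 1) ≤
        (((S.erase j).powerset.filter (fun T => f T = z)).card : ℝ) := by
    apply Finset.exists_le_card_fiber_of_nsmul_le_card_of_maps_to
    · intro a _; exact Finset.mem_univ _
    · exact ⟨0, Finset.mem_univ _⟩
    · rw [Finset.card_univ, ZMod.card, hcardP, nsmul_eq_mul]
      push_cast
      rw [mul_div_cancel₀ _ (by positivity)]
  set P := (S.erase j).powerset.filter (fun T => f T = z) with hP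
  have hPsub : ∀ T ∈ P, T ⊆ S.erase j := fun T hT =>
    Finset.mem_powerset.1 (Finset.mem_filter.1 hT).1
  have hPz : ∀ T ∈ P, f T = z := fun T hT => (Finset.mem_filter.1 hT).2
  have hdis : ∀ T ∈ P, ∀ T' ∈ P, T ≠ T' → Disjoint (nb (ed T)) (nb (ed T')) := by
    intro T hT T' hT' hne
    rw [Finset.disjoint_left]
    intro g hg hg'
    apply hne
    have sT := hPsub T hT
    have sT' := hPsub T' hT'
    obtain ⟨a, ha⟩ := nb_agree _ g hg
    obtain ⟨b, hb⟩ := nb_agree _ g hg'
    rw [hed T sT] at ha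
    rw [hed T' sT'] at hb
    refine eq_of_modEq (S := S) (k := k) hS (sT.trans (Finset.erase_subset _ _))
      (sT'.trans (Finset.erase_subset _ _)) a b (fun i hia hib => ?_) ?_
    · by_cases hij : i = j
      · subst hij
        constructor
        · intro h; exact absurd rfl (Finset.mem_erase.1 (sT h)).1
        · intro h; exact absurd rfl (Finset.mem_erase.1 (sT' h)).1
      · by_cases hiS : i ∈ S
        · rw [← hmemT T sT i hiS, ← hmemT T' sT' i hiS]
          have e1 := ha i hij hia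
          have e2 := hb i hij hib
          simp only at e1 e2
          rw [← e1, ← e2]
        · constructor
          · intro h; exact absurd (Finset.mem_of_mem_erase (sT h)) hiS
          · intro h; exact absurd (Finset.mem_of_mem_erase (sT' h)) hiS
    · have : f T = f T' := by rw [hPz T hT, hPz T' hT']
      exact (ZMod.natCast_eq_natCast_iff _ _ _).1 this
  have hinj : Set.InjOn ed (P : Set (Finset (Fin d))) := by
    intro T hT T' hT' h
    by_contra hne
    have hd := hdis T hT T' hT' hne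
    rw [h] at hd
    have hself : ed T' ∈ nb (ed T') := by simp [nb]
    exact Finset.disjoint_left.1 hd hself hself
  refine ⟨P.image ed, ?_, ?_, ?_⟩
  · intro e he
    obtain ⟨T, hT, rfl⟩ := Finset.mem_image.1 he
    have sT := hPsub T hT
    refine ⟨?_, ?_⟩
    · rw [hed T sT]; exact hj
    · intro i hi
      rw [hed T sT]
      have : i ∉ T := fun h => hi (Finset.mem_of_mem_erase (sT h))
      simp [vt, this]
  · intro e he e' he' hne
    obtain ⟨T, hT, rfl⟩ := Finset.mem_image.1 he
    obtain ⟨T', hT', rfl⟩ := Finset.mem_image.1 he'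
    exact hdis T hT T' hT' (fun h => hne (by rw [h]))
  · rw [Finset.card_image_of_injOn hinj]
    have h1 : (2 ^ (k - 1) : ℝ) ≤ (2 * k + 1) * (P.card : ℝ) := by
      rw [div_le_iff₀ (by positivity)] at hz
      linarith
    exact_mod_cast h1

end Pool.Agent.K7.H23.ECDISJ
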