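import Pool.Agent.K7.H84.GG.Stm

/-!
The uncrossing inequality for all loopless matroids, from the summed steps (`StKap`) and from the
value of the coefficients (`StKB`), by induction on the rank.
-/

set_option autoImplicit false

namespace Pool.Agent.K7.H23.GGGG

open Finset DC813 Pool.Agent.K7.H84.GG

variable {α : Type} [DecidableEq α]

theorem union_rank {r : Finset α → ℕ} (hr : IsRk r) (A S : Finset α)
    (h : ∀ x ∈ S, r (insert x A) = r A) : r (A ∪ S) = r A := by
  induction S using Finset.induction_on with
  | empty => rw [Finset.union_empty]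
  | insert x S hx ih =>
    have h1 := ih (fun y hy => h y (Finset.mem_insert_of_mem hy))
    have h2 := h x (Finset.mem_insert_self x S)
    have h3 := hr.submod (A ∪ S) (insert x A)
    have h4 : A ∪ S ∪ insert x A = A ∪ insert x S := by
      ext y
      simp only [Finset.mem_union, Finset.mem_insert]
      tauto
    have h5 : r A ≤ r ((A ∪ S) ∩ insert x A) :=
      hr.mono _ _ (Finset.subset_inter Finset.subset_union_left (Finset.subset_insert x A))
    have h6 : r A ≤ r (A ∪ insert x S) := hr.mono _ _ Finset.subset_union_left
    rw [h4] at h3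
    omega

theorem cl_facts {r : Finset α → ℕ} (hr : IsRk r) (E A : Finset α) (hA : A ⊆ E) :
    A ⊆ cl r E A ∧ r (cl r E A) = r A ∧ cl r E A ∈ fl r E := by
  have h1 : A ⊆ cl r E A := by
    intro x hx
    unfold cl
    rw [Finset.mem_filter]
    exact ⟨hA hx, by rw [Finset.insert_eq_of_mem hx]⟩
  have h2 : r (cl r E A) = r A := by
    have h3 := union_rank hr A (cl r E A) (fun x hx => by
      unfold cl at hx
      exact (Finset.mem_filter.1 hx).2)
    rwa [Finset.union_eq_right.2 h1] at h3
  refine ⟨h1, h2, ?_⟩
  unfold fl
  rw [Finset.mem_filter, Finset.mem_powerset]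
  refine ⟨Finset.filter_subset _ _, fun e he hne => ?_⟩
  have h4 : r (insert e A) ≠ r A := by
    intro h5
    apply hne
    unfold cl
    rw [Finset.mem_filter]
    exact ⟨he, h5⟩
  have h5 : r A ≤ r (insert e A) := hr.mono _ _ (Finset.subset_insert e A)
  have h6 : r (insert e A) ≤ r (insert e (cl r E A)) :=
    hr.mono _ _ (Finset.insert_subset_insert e h1)
  rw [h2]
  omega

theorem single_rank {r : Finset α → ℕ} (hr : IsRk r) {E : Finset α} (hl : Lp r E) {x : α}
    (hx : x ∈ E) : r {x} = 1 := by
  have h1 := hl x hx
  have h2 := hr.insert_le ∅ x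
  rw [hr.empty] at h2
  have h3 : insert x (∅ : Finset α) = {x} := rfl
  rw [h3] at h2
  omega

theorem exists_line {r : Finset α → ℕ} (hr : IsRk r) {E : Finset α} (hl : Lp r E) {p : α}
    (hp : p ∈ E) (h2 : 2 ≤ r E) : ∃ L, Ctx r E L p := by
  have hp1 := single_rank hr hl hp
  obtain ⟨e, he, hne⟩ : ∃ e ∈ E, r (insert e {p}) ≠ r {p} := by
    by_contra hcon
    push Not at hcon
    have h3 := union_rank hr {p} E hcon
    have h4 : r E ≤ r ({p} ∪ E) := hr.mono _ _ Finset.subset_union_right
    omega
  have h3 : r (insert e {p}) = 2 := by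
    have h4 := hr.insert_le {p} e
    have h5 : r {p} ≤ r (insert e {p}) := hr.mono _ _ (Finset.subset_insert e {p})
    omega
  have hsub : insert e {p} ⊆ E := by
    intro x hx
    rw [Finset.mem_insert, Finset.mem_singleton] at hx
    rcases hx with rfl | rfl
    · exact he
    · exact hp
  obtain ⟨h4, h5, h6⟩ := cl_facts hr E (insert e {p}) hsub
  exact ⟨cl r E (insert e {p}), hr, hl, hp, h6, by rw [h5, h3],
    h4 (Finset.mem_insert_of_mem (Finset.mem_singleton_self p))⟩

/-- the rank one case -/
theorem rank_one {r : Finset α → ℕ} (hr : IsRk r) {E : Finset α} (h1 : r E = 1) (hl : Lp r E)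
    {p : α} (hp : p ∈ E) (f : Finset α → ℤ) : GGs r E p f := by
  have hne : E.Nonempty := ⟨p, hp⟩
  have hrX : ∀ X ⊆ E, X.Nonempty → r X = 1 := by
    rintro X hX ⟨x, hx⟩
    have h2 := hr.mono X E hX
    have h3 := hr.mono {x} X (Finset.singleton_subset_iff.2 hx)
    rw [single_rank hr hl (hX hx)] at h3
    omega
  have hA : (fl r E).filter (fun F => p ∈ F) = {E} := by
    ext F
    rw [Finset.mem_filter, Finset.mem_singleton]
    unfold fl
    rw [Finset.mem_filter, Finset.mem_powerset]
    constructor
    · rintro ⟨⟨hF, hfl⟩, hpF⟩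
      refine Finset.Subset.antisymm hF fun e he => ?_
      by_contra hcon
      have h2 := hfl e he hcon
      rw [hrX F hF ⟨p, hpF⟩] at h2
      have h3 := hr.mono (insert e F) E (Finset.insert_subset he hF)
      omega
    · rintro rfl
      exact ⟨⟨Finset.Subset.refl _, fun e he hne => absurd he hne⟩, hp⟩
  have hB : hy r E p = {∅} := by
    ext H
    unfold hy fl
    rw [Finset.mem_filter, Finset.mem_filter, Finset.mem_powerset, Finset.mem_singleton]
    constructor
    · rintro ⟨⟨hH, -⟩, h2, -⟩
      by_contra hcon
      have := hrX H hH (Finset.nonempty_iff_ne_empty.2 hcon)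
      omega
    · rintro rfl
      refine ⟨⟨Finset.empty_subset _, fun e he _ => ?_⟩, by rw [hr.empty, h1],
        Finset.notMem_empty p⟩
      rw [hr.empty]
      have h3 : insert e (∅ : Finset α) = {e} := rfl
      rw [h3, single_rank hr hl he]
      exact one_pos
  have hbeta : beta r E = 1 := by
    unfold beta
    have h3 : ∀ X ∈ E.powerset, (-1 : ℤ) ^ X.card * (r X : ℤ)
        = (-1 : ℤ) ^ X.card - if X = ∅ then 1 else 0 := by
      intro X hX
      by_cases h4 : X = ∅
      · rw [if_pos h4, h4, hr.empty, Finset.card_empty]
        norm_num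
      · rw [if_neg h4, hrX X (Finset.mem_powerset.1 hX) (Finset.nonempty_iff_ne_empty.2 h4)]
        norm_num
    rw [Finset.sum_congr rfl h3, Finset.sum_sub_distrib,
      Finset.sum_powerset_neg_one_pow_card_of_nonempty hne, Finset.sum_ite_eq',
      if_pos (Finset.empty_mem_powerset E), h1]
    norm_num
  have hmc : mc r E E = 1 := by
    unfold mc mu con
    rw [Finset.sdiff_self, Finset.powerset_empty, Finset.filter_true_of_mem (by
      intro x hx
      rw [Finset.mem_singleton] at hx
      rw [hx])]
    simp
  have hmu : mu r ∅ = 1 := by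
    unfold mu
    rw [Finset.powerset_empty, Finset.filter_true_of_mem (by
      intro x hx
      rw [Finset.mem_singleton] at hx
      rw [hx])]
    simp [hr.empty]
  unfold GGs
  rw [hA, hB, Finset.sum_singleton, Finset.sum_singleton, hbeta, hmc, hmu, Finset.sdiff_self]
  simp

theorem t (hKap : StKap) (hKB : StKB) : StGG := by
  intro α _ n
  induction n using Nat.strong_induction_on with
  | _ n ih =>
    intro r E p f hr hn hl hp hf
    rcases Nat.lt_or_ge n 2 with h2 | h2
    · have h3 : 1 ≤ r E := by
        have h4 := hr.mono {p} E (Finset.singleton_subset_iff.2 hp)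
        rw [single_rank hr hl hp] at h4
        exact h4
      exact rank_one hr (by omega) hl hp f
    · obtain ⟨L, hC⟩ := exists_line hr hl hp (by omega)
      have hIH : IH α (r E) := by
        intro m hm
        exact ih m (by omega)
      have hK := hKap α r E L p f hC hIH hf
      have hLE : L ⊆ E := by
        have := hC.hL
        unfold fl at this
        rw [Finset.mem_filter, Finset.mem_powerset] at this
        exact this.1
      have hsum : ∑ F ∈ (fl r E).filter (fun F => L ⊆ F), kappa r F L p * mc r E F * f (E \ F)
          = ∑ F ∈ (fl r E).filter (fun F => L ⊆ F), beta r F * mc r E F * f (E \ F) := by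
        refine Finset.sum_congr rfl fun F hF => ?_
        rw [Finset.mem_filter] at hF
        obtain ⟨hF1, hF2⟩ := hF
        have hFE : F ⊆ E := by
          unfold fl at hF1
          rw [Finset.mem_filter, Finset.mem_powerset] at hF1
          exact hF1.1
        have hCF : Ctx r F L p := by
          refine ⟨hr, fun x hx => hl x (hFE hx), hF2 hC.hpL, ?_, hC.hL2, hC.hpL⟩
          have h5 := hC.hL
          unfold fl at h5 ⊢
          rw [Finset.mem_filter, Finset.mem_powerset] at h5 ⊢
          exact ⟨hF2, fun e he hne => h5.2 e (hFE he) hne⟩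
        have hIHF : IH α (r F) := by
          intro m hm
          have := hr.mono F E hFE
          exact ih m (by omega)
        rw [hKB α r F L p hCF hIHF]
      rw [hsum] at hK
      unfold GGs
      refine le_trans (le_of_eq ?_) hK
      rw [← Finset.sum_filter_add_sum_filter_not ((fl r E).filter (fun F => p ∈ F))
        (fun F => L ⊆ F), add_comm]
      congr 1
      · refine Finset.sum_congr ?_ fun _ _ => rfl
        rw [Finset.filter_filter]
      · refine Finset.sum_congr ?_ fun _ _ => rfl
        rw [Finset.filter_filter]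
        refine Finset.filter_congr fun F _ => ?_
        constructor
        · exact fun h => h.2
        · exact fun h => ⟨h hC.hpL, h⟩

end Pool.Agent.K7.H23.GGGG
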