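import Pool.Agent.K7.H81.PD.Stm

set_option autoImplicit false

/-!
# Job MO2 of project PD: the Laplacian of a mollification
-/

noncomputable section

namespace Pool.Agent.K7.H23.PDMO2

open MeasureTheory Filter Topology Pool.Agent.K7.H81.PD
open scoped ContDiff Convolution

variable {N : ℕ}

lemma conv_eq (u ρ : E N → ℝ) :
    (fun x => ∫ y, ρ (x - y) * u y) = (u ⋆[ContinuousLinearMap.lsmul ℝ ℝ, volume] ρ) := by
  funext x
  simp only [convolution, ContinuousLinearMap.lsmul_apply, smul_eq_mul]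
  congr 1
  funext y
  ring

lemma pd_smooth {ρ : E N → ℝ} (h : ContDiff ℝ ∞ ρ) (i : Fin N) : ContDiff ℝ ∞ (pd i ρ) := by
  unfold pd
  exact (h.fderiv_right (m := ∞) (by simp)).clm_apply contDiff_const

lemma pd_supp {ρ : E N → ℝ} (h : HasCompactSupport ρ) (i : Fin N) : HasCompactSupport (pd i ρ) := by
  unfold pd
  exact h.fderiv_apply (𝕜 := ℝ) _

lemma pd_conv {u ρ : E N → ℝ} (hu : Integrable u) (h : ContDiff ℝ ∞ ρ) (hc : HasCompactSupport ρ)
    (i : Fin N) : pd i (fun x => ∫ y, ρ (x - y) * u y) = fun x => ∫ y, pd i ρ (x - y) * u y := by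
  funext x
  rw [conv_eq]
  have h1 : ContDiff ℝ 1 ρ := h.of_le (by exact_mod_cast le_top)
  have h2 := hc.hasFDerivAt_convolution_right (ContinuousLinearMap.lsmul ℝ ℝ)
    hu.locallyIntegrable h1 x
  unfold pd
  rw [h2.fderiv]
  rw [convolution_precompR_apply (ContinuousLinearMap.lsmul ℝ ℝ) hu.locallyIntegrable
    (hc.fderiv ℝ) (h1.continuous_fderiv (by norm_num))]
  exact (congrFun (conv_eq u (fun a => fderiv ℝ ρ a (EuclideanSpace.single i 1))) x).symm

lemma lap_conv {u ρ : E N → ℝ} (hu : Integrable u) (h : ContDiff ℝ ∞ ρ) (hc : HasCompactSupport ρ)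
    (x : E N) : lap (fun x => ∫ y, ρ (x - y) * u y) x = ∫ y, lap ρ (x - y) * u y := by
  unfold lap
  have h3 : ∀ i : Fin N, pd i (pd i (fun x => ∫ y, ρ (x - y) * u y)) x =
      ∫ y, pd i (pd i ρ) (x - y) * u y := by
    intro i
    rw [pd_conv hu h hc i, pd_conv hu (pd_smooth h i) (pd_supp hc i) i]
  rw [Finset.sum_congr rfl fun i _ => h3 i, ← integral_finset_sum]
  · congr 1
    funext y
    rw [Finset.sum_mul]
  · intro i _
    have hcs := pd_supp (pd_supp hc i) i
    have hcont := (pd_smooth (pd_smooth h i) i).continuous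
    have := (hcs.convolutionExists_right (ContinuousLinearMap.lsmul ℝ ℝ) hu.locallyIntegrable
      hcont) x
    refine this.congr (Eventually.of_forall fun y => ?_)
    simp only [ContinuousLinearMap.lsmul_apply, smul_eq_mul]
    ring

lemma pd_refl {ρ : E N → ℝ} (h : ContDiff ℝ ∞ ρ) (x : E N) (i : Fin N) :
    pd i (fun z => ρ (x - z)) = fun z => -pd i ρ (x - z) := by
  funext y
  have h1 : HasFDerivAt ρ (fderiv ℝ ρ (x - y)) (x - y) :=
    (h.differentiable (by simp) (x - y)).hasFDerivAt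
  have h2 : HasFDerivAt (fun z : E N => x - z) (-ContinuousLinearMap.id ℝ (E N)) y :=
    (hasFDerivAt_id y).const_sub x
  have h3 := h1.comp y h2
  unfold pd
  have h4 : fderiv ℝ (fun z => ρ (x - z)) y =
      (fderiv ℝ ρ (x - y)).comp (-ContinuousLinearMap.id ℝ (E N)) := h3.fderiv
  rw [h4]
  simp

lemma lap_refl {ρ : E N → ℝ} (h : ContDiff ℝ ∞ ρ) (x y : E N) :
    lap (fun z => ρ (x - z)) y = lap ρ (x - y) := by
  unfold lap
  refine Finset.sum_congr rfl fun i _ => ?_
  rw [pd_refl h x i]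
  have h1 : pd i (fun z => -pd i ρ (x - z)) = fun z => - pd i (fun z => pd i ρ (x - z)) z := by
    funext z
    unfold pd
    rw [fderiv_fun_neg]
    simp
  rw [h1, pd_refl (pd_smooth h i) x i]
  simp

theorem t : StMo2 := by
  intro N u b hu
  have hs : ContDiff ℝ ∞ (b.normed volume) := b.contDiff_normed
  have hc : HasCompactSupport (b.normed (volume : Measure (E N))) := b.hasCompactSupport_normed
  refine ⟨?_, fun x => ?_⟩
  · rw [conv_eq]
    exact hc.contDiff_convolution_right (ContinuousLinearMap.lsmul ℝ ℝ) hu.locallyIntegrable hs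
  · rw [lap_conv hu hs hc x]
    congr 1
    funext y
    rw [lap_refl hs x y]

end Pool.Agent.K7.H23.PDMO2
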